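import Pool.Agent.FS.FourHole.D

open Finset
open Pool.Agent.Lib.MP_8cb124_co Pool.Agent.FS.FourHole

namespace Pool.Agent.FS.RegMate

variable {V : Type} [Fintype V] [DecidableEq V] {G : SimpleGraph V} [DecidableRel G.Adj]

/-- four neighbours and three triangles at every vertex -/
def Reg (G : SimpleGraph V) [DecidableRel G.Adj] : Prop :=
  ∀ v, (NS G univ v).card = 4 ∧ m2 G (NS G univ v) = 6

lemma link (h : Reg G) {v a b c d : V} (va : G.Adj v a) (vb : G.Adj v b) (vc : G.Adj v c)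
    (vd : G.Adj v d) (ab : a ≠ b) (ac : a ≠ c) (ad : a ≠ d) (bc : b ≠ c) (bd : b ≠ d)
    (cd : c ≠ d) : (∀ y, G.Adj v y → y = a ∨ y = b ∨ y = c ∨ y = d) ∧
      (if G.Adj a b then 1 else 0) + (if G.Adj a c then 1 else 0) + (if G.Adj a d then 1 else 0) +
      (if G.Adj b c then 1 else 0) + (if G.Adj b d then 1 else 0) +
      (if G.Adj c d then 1 else 0) = 3 := by
  have n1 : a ∉ ({b, c, d} : Finset V) := by simp [ab, ac, ad]
  have n2 : b ∉ ({c, d} : Finset V) := by simp [bc, bd]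
  have n3 : c ∉ ({d} : Finset V) := by simp [cd]
  have e : ({a, b, c, d} : Finset V) = NS G univ v := by
    refine eq_of_subset_of_card_le (fun x hx => ?_) ?_
    · simp only [mem_insert, mem_singleton] at hx
      rw [mem_NS]
      rcases hx with rfl | rfl | rfl | rfl
      exacts [⟨mem_univ _, va⟩, ⟨mem_univ _, vb⟩, ⟨mem_univ _, vc⟩, ⟨mem_univ _, vd⟩]
    · rw [(h v).1, card_insert_of_notMem n1, card_insert_of_notMem n2, card_insert_of_notMem n3,
        card_singleton]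
  refine ⟨fun y hy => ?_, ?_⟩
  · have : y ∈ ({a, b, c, d} : Finset V) := e ▸ (mem_NS G).mpr ⟨mem_univ _, hy⟩
    simpa only [mem_insert, mem_singleton] using this
  · have h1 := (h v).2
    rw [← e, m2] at h1
    simp only [sum_insert n1, sum_insert n2, sum_insert n3, sum_singleton, G.irrefl, if_false,
      G.adj_comm b a, G.adj_comm c a, G.adj_comm d a, G.adj_comm c b, G.adj_comm d b,
      G.adj_comm d c] at h1
    omega

lemma fourth (h : Reg G) (v a b c : V) : ∃ x, G.Adj v x ∧ x ≠ a ∧ x ≠ b ∧ x ≠ c := by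
  by_contra h1
  have h2 : NS G univ v ⊆ {a, b, c} := fun x hx => by
    by_contra h3
    simp only [mem_insert, mem_singleton, not_or] at h3
    exact h1 ⟨x, ((mem_NS G).mp hx).2, h3⟩
  have h3 := (card_le_card h2).trans card_le_three
  rw [(h v).1] at h3
  omega

section
variable (h : Reg G) {p q r s : V} (pq : G.Adj p q) (qr : G.Adj q r) (rs : G.Adj r s)
  (sp : G.Adj s p) (pr : p ≠ r) (qs : q ≠ s) (npr : ¬ G.Adj p r) (nqs : ¬ G.Adj q s)
include h pq qr rs sp pr qs npr nqs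

lemma no4 {w : V} (wp : G.Adj w p) (wq : G.Adj w q) (wr : G.Adj w r) : ¬ G.Adj w s := fun ws => by
  have := (link h wp wq wr ws pq.ne pr sp.ne' qr.ne qs rs.ne).2
  rw [if_pos pq, if_pos sp.symm, if_pos qr, if_pos rs] at this
  omega

lemma keyA {w z : V} (wp : G.Adj w p) (wq : G.Adj w q) (wr : G.Adj w r) (zq : z ≠ q) (zs : z ≠ s)
    (zp : G.Adj z p) (zr : G.Adj z r) : z = w := by
  by_contra zw
  have ws := no4 h pq qr rs sp pr qs npr nqs wp wq wr
  have sw : s ≠ w := fun e => nqs (e ▸ wq.symm)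
  have h1 : ¬ G.Adj q z := fun qz => by
    have := (link h pq.symm qr wq.symm qz pr wp.ne' zp.ne' wr.ne' zr.ne' (Ne.symm zw)).2
    rw [if_pos wp.symm, if_pos zp.symm, if_pos wr.symm, if_pos zr.symm] at this
    omega
  have h2 : ¬ G.Adj w z := fun wz => by
    have := (link h wp wq wr wz pq.ne pr zp.ne' qr.ne zq.symm zr.ne').2
    rw [if_pos pq, if_pos zp.symm, if_pos qr, if_pos zr.symm] at this
    omega
  have := (link h pq sp.symm wp.symm zp.symm qs wq.ne' zq.symm sw zs.symm (Ne.symm zw)).2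
  rw [if_neg nqs, if_neg h1, if_neg h2, if_neg fun e => ws (G.adj_symm e)] at this
  split_ifs at this <;> omega

lemma keyB {w z y : V} (wp : G.Adj w p) (wq : G.Adj w q) (wr : G.Adj w r) (zp : z ≠ p)
    (zr : z ≠ r) (zq : G.Adj z q) (zs : G.Adj z s) (yp : y ≠ p) (yr : y ≠ r) (yq : G.Adj y q)
    (ys : G.Adj y s) : y = z := by
  have ws := no4 h pq qr rs sp pr qs npr nqs wp wq wr
  have wz : w ≠ z := fun e => ws (e ▸ zs)
  rcases (link h pq.symm qr wq.symm zq.symm pr wp.ne' zp.symm wr.ne' zr.symm wz).1 y yq.symm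
    with e | e | e | e
  exacts [absurd e yp, absurd e yr, absurd (e ▸ ys) ws, e]

lemma keyC (hC : Conn G univ) (h7 : 7 < Fintype.card V) {w z : V} (wp : G.Adj w p)
    (wq : G.Adj w q) (wr : G.Adj w r) (zq : G.Adj z q) (zr : G.Adj z r) : ¬ G.Adj z s := by
  intro zs
  have ws := no4 h pq qr rs sp pr qs npr nqs wp wq wr
  have zp := no4 h qr rs sp pq qs pr.symm nqs (fun e => npr e.symm) zq zr zs
  have wz : w ≠ z := fun e => ws (e ▸ zs)
  have sw : s ≠ w := fun e => nqs (e ▸ wq.symm)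
  have pz : p ≠ z := fun e => npr (e ▸ zr)
  obtain ⟨Nq, l1⟩ := link h pq.symm qr wq.symm zq.symm pr wp.ne' pz wr.ne' zr.ne' wz
  obtain ⟨Nr, -⟩ := link h qr.symm rs wr.symm zr.symm qs wq.ne' zq.ne' sw zs.ne' wz
  obtain ⟨x, px, xq, xs, xw⟩ := fourth h p q s w
  have xr : x ≠ r := fun e => npr (e ▸ px)
  have xz : x ≠ z := fun e => zp (e ▸ px.symm)
  have qx : ¬ G.Adj q x := fun e => by
    rcases Nq x e with e | e | e | e
    exacts [px.ne' e, xr e, xw e, xz e]
  have rx : ¬ G.Adj r x := fun e => by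
    rcases Nr x e with e | e | e | e
    exacts [xq e, xs e, xw e, xz e]
  obtain ⟨Np', l2⟩ := link h pq sp.symm wp.symm px qs wq.ne' xq.symm sw xs.symm xw.symm
  rw [if_neg nqs, if_neg qx, if_pos wq.symm, if_neg fun e => ws (G.adj_symm e)] at l2
  have sx : G.Adj s x := by
    by_contra e
    rw [if_neg e] at l2
    split_ifs at l2 <;> omega
  have wx : G.Adj w x := by
    by_contra e
    rw [if_neg e] at l2
    split_ifs at l2 <;> omega
  obtain ⟨Ns, l3⟩ := link h sp rs.symm zs.symm sx pr pz px.ne zr.ne' xr.symm xz.symm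
  rw [if_neg npr, if_neg rx, if_pos px, if_pos zr.symm, if_neg fun e => zp (G.adj_symm e)] at l3
  have zx : G.Adj z x := by
    by_contra e
    rw [if_neg e] at l3
    omega
  obtain ⟨Nw, -⟩ := link h wp wq wr wx pq.ne pr px.ne qr.ne xq.symm xr.symm
  obtain ⟨Nz, -⟩ := link h zq zr zs zx qr.ne qs xq.symm rs.ne xr.symm xs.symm
  obtain ⟨Nx', -⟩ := link h px.symm sx.symm wx.symm zx.symm sp.ne' wp.ne' pz sw zs.ne' wz
  have h1 := hC {p, q, r, s, w, z, x} (subset_univ _) (insert_nonempty _ _) fun a ha b _ hab => by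
    simp only [mem_insert, mem_singleton] at ha ⊢
    rcases ha with e | e | e | e | e | e | e <;> rw [e] at hab
    · have := Np' b hab; tauto
    · have := Nq b hab; tauto
    · have := Nr b hab; tauto
    · have := Ns b hab; tauto
    · have := Nw b hab; tauto
    · have := Nz b hab; tauto
    · have := Nx' b hab; tauto
  have h2 := card_le_card h1
  have h3 := card_insert_le p ({q, r, s, w, z, x} : Finset V)
  have h4 : ({q, r, s, w, z, x} : Finset V).card ≤ 6 := card_le_six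
  rw [card_univ] at h2
  omega

omit h in
lemma three_cases {w : V} (h3 : 3 ≤ (NS G {p, q, r, s} w).card) :
    (G.Adj w p ∧ G.Adj w q ∧ G.Adj w r) ∨ (G.Adj w q ∧ G.Adj w r ∧ G.Adj w s) ∨
    (G.Adj w r ∧ G.Adj w s ∧ G.Adj w p) ∨ (G.Adj w s ∧ G.Adj w p ∧ G.Adj w q) := by
  rw [NS, card_filter, sum_insert (by simp [pq.ne, pr, sp.ne']), sum_insert (by simp [qr.ne, qs]),
    sum_insert (by simp [rs.ne]), sum_singleton] at h3
  split_ifs at h3 <;> first | omega | tauto

omit h in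
lemma four_case {w : V} (h3 : 4 ≤ (NS G {p, q, r, s} w).card) :
    G.Adj w p ∧ G.Adj w q ∧ G.Adj w r ∧ G.Adj w s := by
  rw [NS, card_filter, sum_insert (by simp [pq.ne, pr, sp.ne']), sum_insert (by simp [qr.ne, qs]),
    sum_insert (by simp [rs.ne]), sum_singleton] at h3
  split_ifs at h3 <;> first | omega | tauto

omit h pr qs npr nqs in
lemma opp_cases {w : V} (h1 : Opp G {p, q, r, s} w) :
    (G.Adj w p ∧ G.Adj w r) ∨ (G.Adj w q ∧ G.Adj w s) := by
  obtain ⟨a, ha, b, hb, h6, h7, hab, h8⟩ := h1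
  simp only [mem_insert, mem_singleton] at ha hb
  rcases ha with rfl | rfl | rfl | rfl <;> rcases hb with rfl | rfl | rfl | rfl <;>
    first
      | exact absurd rfl hab
      | exact Or.inl ⟨h6, h7⟩
      | exact Or.inl ⟨h7, h6⟩
      | exact Or.inr ⟨h6, h7⟩
      | exact Or.inr ⟨h7, h6⟩
      | contradiction
      | exact (h8 (G.adj_symm ‹_›)).elim

lemma rot (hC : Conn G univ) (h7 : 7 < Fintype.card V) {Q : Finset V} (e : Q = {p, q, r, s})
    {w : V} (wp : G.Adj w p) (wq : G.Adj w q) (wr : G.Adj w r) :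
    (∀ z ∉ Q, 3 ≤ (NS G Q z).card → z = w) ∧ ∃ y, ∀ z ∉ Q, Opp G Q z → z = w ∨ z = y := by
  subst e
  constructor
  · intro z hz h3
    simp only [mem_insert, mem_singleton, not_or] at hz
    rcases three_cases pq qr rs sp pr qs npr nqs h3 with h1 | h1 | h1 | h1
    · exact keyA h pq qr rs sp pr qs npr nqs wp wq wr hz.2.1 hz.2.2.2 h1.1 h1.2.2
    · exact absurd h1.2.2 (keyC h pq qr rs sp pr qs npr nqs hC h7 wp wq wr h1.1 h1.2.1)
    · exact keyA h pq qr rs sp pr qs npr nqs wp wq wr hz.2.1 hz.2.2.2 h1.2.2 h1.1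
    · exact absurd h1.1 (keyC h qr.symm pq.symm sp.symm rs.symm pr.symm qs (fun e => npr e.symm)
        nqs hC h7 wr wq wp h1.2.2 h1.2.1)
  · by_cases h1 : ∃ y, y ≠ p ∧ y ≠ r ∧ G.Adj y q ∧ G.Adj y s
    · obtain ⟨y, y1, y2, y3, y4⟩ := h1
      refine ⟨y, fun z hz h2 => ?_⟩
      simp only [mem_insert, mem_singleton, not_or] at hz
      rcases opp_cases pq qr rs sp h2 with h3 | h3
      · exact Or.inl (keyA h pq qr rs sp pr qs npr nqs wp wq wr hz.2.1 hz.2.2.2 h3.1 h3.2)
      · exact Or.inr (keyB h pq qr rs sp pr qs npr nqs wp wq wr y1 y2 y3 y4 hz.1 hz.2.2.1 h3.1 h3.2)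
    · refine ⟨w, fun z hz h2 => ?_⟩
      simp only [mem_insert, mem_singleton, not_or] at hz
      rcases opp_cases pq qr rs sp h2 with h3 | h3
      · exact Or.inl (keyA h pq qr rs sp pr qs npr nqs wp wq wr hz.2.1 hz.2.2.2 h3.1 h3.2)
      · exact absurd ⟨z, hz.1, hz.2.2.1, h3.1, h3.2⟩ h1

end

end Pool.Agent.FS.RegMate
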