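import Pool.Agent.FS.RegMate.A

open Finset PowerSeries
open Pool.Agent.Lib.MP_8cb124_co Pool.Agent.FS.FourHole

namespace Pool.Agent.FS.RegMate

variable {V : Type} [Fintype V] [DecidableEq V] {G : SimpleGraph V} [DecidableRel G.Adj]

lemma cnt' (s : Finset V) (P : V → Prop) [DecidablePred P] (A : Finset V) (k : ℕ) (hk : A.card ≤ k)
    (h : ∀ w ∈ s, P w → w ∈ A) : ∑ w ∈ s, (if P w then 1 else 0) ≤ k := by
  rw [← card_filter]
  exact (card_le_card fun w hw => h w (mem_filter.mp hw).1 (mem_filter.mp hw).2).trans hk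

lemma light (h : Reg G) (hC : Conn G univ) (h7 : 7 < Fintype.card V) (Q : Finset V)
    (hQ : Hole G Q) (h4 : Q.card = 4) : ∑ w ∈ Qᶜ, om G Q w ≤ 4 := by
  classical
  obtain ⟨p, q, r, s, e, pq, qr, rs, sp, pr, qs, npr, nqs⟩ := hole4 G hQ h4
  have nrp : ¬ G.Adj r p := fun e => npr e.symm
  have nsq : ¬ G.Adj s q := fun e => nqs e.symm
  have c4 : ∀ w ∈ Qᶜ, 4 ≤ (NS G Q w).card → w ∈ (∅ : Finset V) := fun w _ h1 => by
    rw [e] at h1
    obtain ⟨a, b, c, d⟩ := four_case pq qr rs sp pr qs npr nqs h1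
    exact absurd d (no4 h pq qr rs sp pr qs npr nqs a b c)
  simp only [om, sum_add_distrib, ← mul_sum]
  by_cases h3 : ∃ w, 3 ≤ (NS G Q w).card ∧ w ∉ Q
  · obtain ⟨w, h5, -⟩ := h3
    obtain ⟨k1, y, k2⟩ : (∀ z ∉ Q, 3 ≤ (NS G Q z).card → z = w) ∧
        ∃ y, ∀ z ∉ Q, Opp G Q z → z = w ∨ z = y := by
      rcases three_cases pq qr rs sp pr qs npr nqs (e ▸ h5) with h1 | h1 | h1 | h1
      · exact rot h pq qr rs sp pr qs npr nqs hC h7 e h1.1 h1.2.1 h1.2.2
      · exact rot h qr rs sp pq qs pr.symm nqs nrp hC h7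
          (by rw [e]; ext x; simp only [mem_insert, mem_singleton]; tauto) h1.1 h1.2.1 h1.2.2
      · exact rot h rs sp pq qr pr.symm qs.symm nrp nsq hC h7
          (by rw [e]; ext x; simp only [mem_insert, mem_singleton]; tauto) h1.1 h1.2.1 h1.2.2
      · exact rot h sp pq qr rs qs.symm pr nsq npr hC h7
          (by rw [e]; ext x; simp only [mem_insert, mem_singleton]; tauto) h1.1 h1.2.1 h1.2.2
    exact le_trans (add_le_add (add_le_add
      (cnt' _ _ {w, y} 2 card_le_two fun z hz h1 => by simpa using k2 z (mem_compl.mp hz) h1)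
      (Nat.mul_le_mul_left _ (cnt' _ _ {w} 1 (card_singleton w).le fun z hz h1 =>
        mem_singleton.mpr (k1 z (mem_compl.mp hz) h1))))
      (Nat.mul_le_mul_left _ (cnt' _ _ ∅ 0 le_rfl c4))) (by omega)
  · have two : ∀ v a b, G.Adj v a → G.Adj v b → b ≠ a →
        (((NS G univ v).erase a).erase b).card = 2 := fun v a b h1 h2 hab => by
      rw [card_erase_of_mem (mem_erase.mpr ⟨hab, (mem_NS G).mpr ⟨mem_univ _, h2⟩⟩),
        card_erase_of_mem ((mem_NS G).mpr ⟨mem_univ _, h1⟩), (h v).1]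
    refine le_trans (add_le_add (add_le_add
      (cnt' _ _ (((NS G univ p).erase q).erase s ∪ ((NS G univ q).erase p).erase r) 4 ?_
        fun z hz h1 => ?_)
      (Nat.mul_le_mul_left _ (cnt' _ _ ∅ 0 le_rfl fun z hz h1 =>
        absurd ⟨z, h1, mem_compl.mp hz⟩ h3)))
      (Nat.mul_le_mul_left _ (cnt' _ _ ∅ 0 le_rfl c4))) (by omega)
    · refine (card_union_le _ _).trans ?_
      rw [two p q s pq sp.symm qs.symm, two q p r pq.symm qr pr.symm]
    · rw [e] at hz h1
      simp only [mem_compl, mem_insert, mem_singleton, not_or] at hz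
      simp only [mem_union, mem_erase, mem_NS, mem_univ, true_and]
      rcases opp_cases pq qr rs sp h1 with h2 | h2
      · exact Or.inl ⟨hz.2.2.2, hz.2.1, h2.1.symm⟩
      · exact Or.inr ⟨hz.2.2.1, hz.1, h2.1.symm⟩

lemma del_small (S : Finset V) (h : S.card < 4) : del G S = 0 := by
  induction S using Finset.strongInduction with
  | H S ih =>
    rcases S.eq_empty_or_nonempty with rfl | hS
    · simp [del, LL_nil, m2, t6]
    obtain ⟨v, hv⟩ := small_SE (G := G) S h S subset_rfl hS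
    have h1 := ih (S.erase v) (erase_ssubset hv.1) (card_erase_le.trans_lt h)
    have h2 := hv.m2
    have h3 : (NS G S v).card ≤ 2 := by have := NS_lt G hv.1; omega
    have h4 : lam 0 = 0 := by simp [lam, LD_one]
    rw [del] at h1
    rw [del, LL_erase G hv, m2_erase G hv.1, t6_erase G hv.1]
    generalize (NS G S v).card = d at *
    generalize m2 G (NS G S v) = m at *
    push_cast
    interval_cases d
    · obtain rfl : m = 0 := by omega
      rw [h4]; linear_combination h1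
    · obtain rfl : m = 0 := by omega
      linear_combination h1
    · obtain rfl : m = 2 := by omega
      linear_combination h1

lemma del_three (G : SimpleGraph V) [DecidableRel G.Adj] : X ^ 3 ∣ del G univ := by
  rw [← mob_inv univ (del G)]
  refine dvd_sum fun S _ => ?_
  rcases lt_or_ge S.card 4 with h1 | h1
  · rw [mob_top, del_small S h1]
    · exact dvd_zero _
    · exact fun B hB _ => del_small B ((card_le_card hB).trans_lt h1)
  · exact (pow_dvd_pow _ (by omega)).trans (dvd_mob_del G h1)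

lemma counts {W : Type} [Fintype W] [DecidableEq W] {H : SimpleGraph W} [DecidableRel H.Adj]
    (h : LL G univ = LL H univ) : m2 G univ = m2 H univ ∧ t6 G univ = t6 H univ := by
  have e : ((3 * m2 H univ - 3 * m2 G univ : ℤ) : ℚ⟦X⟧) * lam 1 +
      ((t6 H univ - t6 G univ : ℤ) : ℚ⟦X⟧) * (lam 2 - 2 * lam 1) = del G univ - del H univ := by
    rw [del, del, h]; push_cast; ring
  obtain ⟨h1, h2⟩ := lam_indep (e ▸ dvd_sub (del_three G) (del_three H))
  omega

lemma const_of (f : V → ℕ) (c : ℕ) (hs : ∑ v, f v = c * Fintype.card V)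
    (h : (∀ v, f v ≤ c) ∨ ∀ v, c ≤ f v) (v : V) : f v = c := by
  by_contra hv
  have e : ∑ _u : V, c = c * Fintype.card V := by rw [sum_const, card_univ, smul_eq_mul, mul_comm]
  rcases h with h | h
  · have := sum_lt_sum (s := univ) (g := fun _ => c) (fun i _ => h i)
      ⟨v, mem_univ _, lt_of_le_of_ne (h v) hv⟩
    omega
  · have := sum_lt_sum (s := univ) (f := fun _ => c) (fun i _ => h i)
      ⟨v, mem_univ _, lt_of_le_of_ne (h v) (Ne.symm hv)⟩
    omega

omit [Fintype V] [DecidableEq V] in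
lemma side (f : V → ℕ) (c : ℕ) (h : ∀ u v, f u ≤ f v) : (∀ v, f v ≤ c) ∨ ∀ v, c ≤ f v := by
  by_cases h1 : ∀ v, f v ≤ c
  · exact Or.inl h1
  · obtain ⟨u, hu⟩ := not_forall.mp h1
    exact Or.inr fun v => (not_le.mp hu).le.trans (h u v)

theorem core {n : ℕ} (hn : 43 ≤ n) (V : Type) [Finite V] (G : SimpleGraph V)
    (hG : (∀ u v : V, ∃ φ : G ≃g G, φ u = v) ∨
      (((∀ v, (G.neighborSet v).ncard ≤ 4) ∨ ∀ v, 4 ≤ (G.neighborSet v).ncard) ∧
        ((∀ v, {x : V × V | G.Adj v x.1 ∧ G.Adj v x.2 ∧ G.Adj x.1 x.2}.ncard ≤ 6) ∨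
          ∀ v, 6 ≤ {x : V × V | G.Adj v x.1 ∧ G.Adj v x.2 ∧ G.Adj x.1 x.2}.ncard)))
    (h : ∀ k : ℕ, Nat.card (G.Coloring (Fin k)) = Nat.card ((Sq n).Coloring (Fin k))) :
    Nonempty (G ≃g Sq n) := by
  classical
  have : NeZero n := ⟨by omega⟩
  have := Fintype.ofFinite V
  obtain ⟨g1, g2⟩ : ((∀ v, (G.neighborSet v).ncard ≤ 4) ∨ ∀ v, 4 ≤ (G.neighborSet v).ncard) ∧
      ((∀ v, {x : V × V | G.Adj v x.1 ∧ G.Adj v x.2 ∧ G.Adj x.1 x.2}.ncard ≤ 6) ∨
        ∀ v, 6 ≤ {x : V × V | G.Adj v x.1 ∧ G.Adj v x.2 ∧ G.Adj x.1 x.2}.ncard) := by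
    refine hG.elim (fun hT => ⟨side _ _ fun u v => ?_, side _ _ fun u v => ?_⟩) id
    · obtain ⟨φ, rfl⟩ := hT u v
      exact Set.ncard_le_ncard_of_injOn φ (fun a ha => φ.map_adj_iff.mpr ha)
        φ.injective.injOn (Set.toFinite _)
    · obtain ⟨φ, rfl⟩ := hT u v
      exact Set.ncard_le_ncard_of_injOn (Prod.map φ φ) (fun a ha =>
        ⟨φ.map_adj_iff.mpr ha.1, φ.map_adj_iff.mpr ha.2.1, φ.map_adj_iff.mpr ha.2.2⟩)
        (φ.injective.prodMap φ.injective).injOn (Set.toFinite _)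
  obtain ⟨h1, h2⟩ := Zp_transfer (EE_ne G univ) (EE_ne (Sq n) univ) fun x => by
    rw [← card_coloring, ← card_coloring, h]
  have hL : LL G univ = LL (Sq n) univ := by rw [LL, LL, ZS, ZS, h2]
  have h1' := h1
  rw [ZMod.card] at h1
  have hV : 0 < Fintype.card V := by omega
  have hC : Conn G univ := by
    rw [← conn_iff hV, cc_eq_one_iff (EE_ne G univ) hV, h2, h1', ← cc_eq_one_iff (EE_ne _ univ)
      (h1' ▸ hV), conn_iff (h1' ▸ hV)]
    exact Sq_conn (by omega)
  obtain ⟨t1, t2⟩ := counts hL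
  rw [Sq_m2 (by omega), m2_eq, ← h1] at t1
  rw [Sq_t6 (by omega), t6_eq, ← h1] at t2
  have e1 : ∀ v, (G.neighborSet v).ncard = (NS G univ v).card := fun v => by
    rw [← Set.ncard_coe_finset]
    exact congrArg Set.ncard (Set.ext fun x => by simp [mem_NS])
  have e2 : ∀ v, {x : V × V | G.Adj v x.1 ∧ G.Adj v x.2 ∧ G.Adj x.1 x.2}.ncard =
      m2 G (NS G univ v) := fun v => by
    rw [m2_NS, ← sum_product' (f := fun b c => if G.Adj v b ∧ G.Adj v c ∧ G.Adj b c then 1 else 0),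
      ← card_filter, ← Set.ncard_coe_finset]
    exact congrArg Set.ncard (Set.ext fun x => by simp)
  simp only [e1] at g1
  simp only [e2] at g2
  have hR : Reg G := fun v => ⟨const_of _ 4 t1 g1 v, const_of _ 6 t2 g2 v⟩
  refine main hn V G (Or.inr (k4free G (no_hole G (light hR hC (by omega)) ?_) ?_)) h
  · rw [g4, hL]
    exact Sq_zero hn _ _ _ _ (p4_zero 1 (by omega)) (p4_zero 2 (by omega))
  · rw [hL]
    exact Sq_zero hn _ _ _ _ (p3_zero 1 (by omega)) (p3_zero 2 (by omega))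

end Pool.Agent.FS.RegMate
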